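import Pool.Agent.Lib.MP_44afb3_an.Basic

/-!
# Boolean algebras of subspaces closed under closed spans are Maharam algebras
-/

set_option autoImplicit false
open Set Filter Topology

namespace Pool.Agent.Results.MP_44afb3_an.MaharamSubmeasure

open Pool.Agent.Lib.MP_44afb3_an

variable {H : Type*} [NormedAddCommGroup H] [InnerProductSpace ℂ H]

/-- `ν` is a strictly positive continuous submeasure on the members of `E` contained in `N`:
nonnegative, zero only at `0`, monotone, subadditive for `∨`, and `ν (M n) → 0` for every decreasing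
sequence of members of `E` contained in `N` with intersection `0`. -/
structure IsMaharam (E : Set (Submodule ℂ H)) (N : Submodule ℂ H) (ν : Submodule ℂ H → ℝ) :
    Prop where
  nonneg : ∀ M ∈ E, M ≤ N → 0 ≤ ν M
  eq_zero_iff : ∀ M ∈ E, M ≤ N → (ν M = 0 ↔ M = ⊥)
  mono : ∀ L ∈ E, ∀ M ∈ E, L ≤ M → M ≤ N → ν L ≤ ν M
  subadd : ∀ L ∈ E, ∀ M ∈ E, L ≤ N → M ≤ N → ν (cjoin L M) ≤ ν L + ν M
  cont : ∀ M : ℕ → Submodule ℂ H, (∀ n, M n ∈ E) → (∀ n, M n ≤ N) → Antitone M →
    (⨅ n, M n) = ⊥ → Tendsto (fun n => ν (M n)) atTop (𝓝 0)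

lemma transfer {E : Set (Submodule ℂ H)} (hB : IsBooleanAlg E) (hS : SpanClosed E) (N : ↥E)
    (h : letI := boolE hB
      ∃ ν : Set.Iic N → ℝ, (∀ a, 0 ≤ ν a) ∧ (∀ a, ν a = 0 ↔ a = ⊥) ∧ Monotone ν ∧
      (∀ a b, ν (a ⊔ b) ≤ ν a + ν b) ∧
      ∀ a : ℕ → Set.Iic N, Antitone a → IsGLB (range a) ⊥ →
        Tendsto (fun n => ν (a n)) atTop (𝓝 0)) :
    ∃ ν : Submodule ℂ H → ℝ, IsMaharam E N.1 ν := by
  classical
  letI := boolE hB
  obtain ⟨ν, h1, h2, h3, h4, h5⟩ := h
  let ν' : Submodule ℂ H → ℝ := fun M =>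
    if h : M ∈ E ∧ M ≤ N.1 then ν ⟨⟨M, h.1⟩, h.2⟩ else 0
  have hν : ∀ (M : Submodule ℂ H) (hM : M ∈ E) (hMN : M ≤ N.1),
      ν' M = ν ⟨⟨M, hM⟩, hMN⟩ := fun M hM hMN => dif_pos ⟨hM, hMN⟩
  refine ⟨ν', ?_, ?_, ?_, ?_, ?_⟩
  · intro M hM hMN
    rw [hν M hM hMN]
    exact h1 _
  · intro M hM hMN
    rw [hν M hM hMN, h2]
    constructor
    · intro h
      have := congrArg (fun a : Set.Iic N => a.1.1) h
      exact this
    · rintro rfl
      rfl
  · intro L hL M hM hLM hMN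
    rw [hν L hL (hLM.trans hMN), hν M hM hMN]
    exact h3 hLM
  · intro L hL M hM hLN hMN
    have h6 : cjoin L M ∈ E := hB.join_mem L hL M hM
    have h7 : cjoin L M ≤ N.1 := cjoin_le (hB.isClosed _ N.2) hLN hMN
    rw [hν L hL hLN, hν M hM hMN, hν _ h6 h7]
    exact h4 ⟨⟨L, hL⟩, hLN⟩ ⟨⟨M, hM⟩, hMN⟩
  · intro M hM hMN hanti hinf
    have h6 : ∀ n, ν' (M n) = ν ⟨⟨M n, hM n⟩, hMN n⟩ := fun n => hν _ _ _
    simp only [h6]
    apply h5 (fun n => ⟨⟨M n, hM n⟩, hMN n⟩)
    · intro m n hmn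
      exact hanti hmn
    · refine ⟨?_, ?_⟩
      · rintro _ ⟨n, rfl⟩
        exact bot_le
      · intro c hc
        have h7 : c.1.1 ≤ ⨅ n, M n := le_iInf fun n => hc ⟨n, rfl⟩
        rw [hinf] at h7
        exact h7

/-- Let `E` be a Boolean algebra of subspaces of a complex Hilbert space `H` that is closed under
closed spans of arbitrary subfamilies, or closed under intersections of arbitrary subfamilies.
Then below every nonzero `M ∈ E` there is a nonzero `N ∈ E` such that the members of `E` contained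
in `N` carry a strictly positive continuous submeasure; if `H` is separable one can take `N = H`. -/
theorem result [CompleteSpace H] (E : Set (Submodule ℂ H)) (hE : IsBooleanAlg E)
    (hc : SpanClosed E ∨ InterClosed E) :
    (∀ M ∈ E, M ≠ ⊥ → ∃ N ∈ E, N ≠ ⊥ ∧ N ≤ M ∧ ∃ ν : Submodule ℂ H → ℝ, IsMaharam E N ν) ∧
    (TopologicalSpace.SeparableSpace H → ∃ ν : Submodule ℂ H → ℝ, IsMaharam E ⊤ ν) := by
  have hS : SpanClosed E := by
    rcases hc with h | h
    · exact h
    · exact spanClosed_of_interClosed hE h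
  letI := boolE hE
  have he := rep_of_spanClosed hE hS
  constructor
  · intro M hM hM0
    have hM0' : (⟨M, hM⟩ : ↥E) ≠ ⊥ := fun h => hM0 (congrArg Subtype.val h)
    obtain ⟨N, hN0, hNM, x, hx⟩ := he.local_vector hM0'
    refine ⟨N.1, N.2, fun h => hN0 (Subtype.ext h), hNM, ?_⟩
    exact transfer hE hS N (he.submeasure N x hx)
  · intro hsep
    refine transfer hE hS (⊤ : ↥E) (he.submeasure ⊤ (TopologicalSpace.denseSeq H) ?_)
    intro L _ hL
    apply Subtype.ext
    show L.1 = ⊥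
    have h1 : (L.1ᗮ : Submodule ℂ H) = ⊤ := by
      rw [eq_top_iff]
      intro y _
      have hcl : IsClosed ((L.1ᗮ : Submodule ℂ H) : Set H) := Submodule.isClosed_orthogonal _
      have h2 : closure (Set.range (TopologicalSpace.denseSeq H)) ⊆
          ((L.1ᗮ : Submodule ℂ H) : Set H) := by
        apply closure_minimal _ hcl
        rintro _ ⟨n, rfl⟩
        exact hL n
      exact h2 (TopologicalSpace.denseRange_denseSeq H y)
    have h3 : L.1 ≤ L.1ᗮᗮ := Submodule.le_orthogonal_orthogonal _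
    rw [h1, Submodule.top_orthogonal_eq_bot] at h3
    exact le_bot_iff.1 h3

end Pool.Agent.Results.MP_44afb3_an.MaharamSubmeasure
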