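import Mathlib

/-!
# A complete Boolean algebra of subspaces not isomorphic to a reflexive one

We answer Q1 of MP_44afb3_an in the negative, with completeness as in the problem file: every
subfamily has a supremum in the family with respect to inclusion.

The example lives on `ℓ²(ℚ)`.  For a point `x : ℚ` let `pt x` be an ultrafilter on `ℚ` that
contains all neighbourhoods of `x` and all dense open sets, and for `U ⊆ ℚ` let `pts U` be the set
of `x` with `U ∈ pt x`.  The family consists of the coordinate subspaces `ℓ²(pts U)`, `U` a regular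
open subset of `ℚ`.  It is isomorphic to the Boolean algebra of regular open sets of `ℚ`, which is
complete but not weakly distributive.  A reflexive family is closed under arbitrary intersections
and closed spans, and an approximation argument shows that it is weakly distributive.
-/

set_option autoImplicit false
open Set Filter Topology
open scoped ENNReal

namespace Pool.Agent.Results.MP_44afb3_an.NotIsoReflexive

/-! ### Definitions of the statement -/

section defs

variable {H : Type*} [NormedAddCommGroup H] [InnerProductSpace ℂ H]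
variable {K : Type*} [NormedAddCommGroup K] [InnerProductSpace ℂ K]

/-- `M ∨ N`: the closed linear span of the union of two subspaces. -/
def cjoin (M N : Submodule ℂ H) : Submodule ℂ H := (M ⊔ N).topologicalClosure

/-- `E` is a Boolean algebra of (closed) subspaces: it contains `0` and the whole space, is closed
under `M ∧ N = M ∩ N` and `M ∨ N`, is distributive, and every member has a complement in `E`. -/
structure IsBooleanAlg (E : Set (Submodule ℂ H)) : Prop where
  isClosed : ∀ M ∈ E, IsClosed (M : Set H)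
  bot_mem : (⊥ : Submodule ℂ H) ∈ E
  top_mem : (⊤ : Submodule ℂ H) ∈ E
  inf_mem : ∀ M ∈ E, ∀ N ∈ E, M ⊓ N ∈ E
  join_mem : ∀ M ∈ E, ∀ N ∈ E, cjoin M N ∈ E
  distrib : ∀ L ∈ E, ∀ M ∈ E, ∀ N ∈ E, L ⊓ cjoin M N = cjoin (L ⊓ M) (L ⊓ N)
  compl : ∀ M ∈ E, ∃ M' ∈ E, M ⊓ M' = ⊥ ∧ cjoin M M' = ⊤

/-- `E` is complete: every subfamily `F` of `E` has a supremum in `E` with respect to inclusion. -/
def IsCompleteFam (E : Set (Submodule ℂ H)) : Prop :=
  ∀ F : Set (Submodule ℂ H), F ⊆ E →
    ∃ S ∈ E, (∀ M ∈ F, M ≤ S) ∧ ∀ S' ∈ E, (∀ M ∈ F, M ≤ S') → S ≤ S'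

/-- `Alg E`: the bounded operators leaving every member of `E` invariant. -/
def algOf (E : Set (Submodule ℂ H)) : Set (H →L[ℂ] H) :=
  {T | ∀ M ∈ E, ∀ x ∈ M, T x ∈ M}

/-- `Lat A`: the closed subspaces invariant under every operator in `A`. -/
def latOf (A : Set (H →L[ℂ] H)) : Set (Submodule ℂ H) :=
  {M | IsClosed (M : Set H) ∧ ∀ T ∈ A, ∀ x ∈ M, T x ∈ M}

/-- `E` is reflexive: `E = Lat Alg E`. -/
def IsReflexiveFam (E : Set (Submodule ℂ H)) : Prop := E = latOf (algOf E)

/-- `E` and `E'` are lattice isomorphic: there is a bijection between them preserving `∧` and `∨`. -/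
def LatticeIso (E : Set (Submodule ℂ H)) (E' : Set (Submodule ℂ K)) : Prop :=
  ∃ φ : Submodule ℂ H → Submodule ℂ K, Set.BijOn φ E E' ∧
    ∀ M ∈ E, ∀ N ∈ E, φ (M ⊓ N) = φ M ⊓ φ N ∧ φ (cjoin M N) = cjoin (φ M) (φ N)

end defs

/-! ### ultrafilters attached to points -/

section top

variable {X : Type} [TopologicalSpace X]

/-- The filter generated by the dense open sets. -/
def denseOpen (X : Type) [TopologicalSpace X] : Filter X where
  sets := {A | ∃ D : Set X, IsOpen D ∧ Dense D ∧ D ⊆ A}
  univ_sets := ⟨univ, isOpen_univ, dense_univ, subset_rfl⟩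
  sets_of_superset := by
    rintro A B ⟨D, h1, h2, h3⟩ hAB
    exact ⟨D, h1, h2, h3.trans hAB⟩
  inter_sets := by
    rintro A B ⟨D, h1, h2, h3⟩ ⟨D', h1', h2', h3'⟩
    exact ⟨D ∩ D', h1.inter h1', h2.inter_of_isOpen_left h2' h1, inter_subset_inter h3 h3'⟩

lemma mem_denseOpen {D : Set X} (h1 : IsOpen D) (h2 : Dense D) : D ∈ denseOpen X :=
  ⟨D, h1, h2, subset_rfl⟩

instance neBot_aux (x : X) : (𝓝 x ⊓ denseOpen X).NeBot := by
  rw [Filter.inf_neBot_iff]
  intro s hs s' hs'
  obtain ⟨V, hVs, hV, hxV⟩ := mem_nhds_iff.1 hs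
  obtain ⟨D, h1, h2, h3⟩ := hs'
  obtain ⟨y, hy⟩ := h2.inter_open_nonempty V hV ⟨x, hxV⟩
  exact ⟨y, hVs hy.1, h3 hy.2⟩

/-- an ultrafilter at the point `x` containing all dense open sets -/
noncomputable def pt (x : X) : Ultrafilter X := Ultrafilter.of (𝓝 x ⊓ denseOpen X)

lemma mem_pt_of_nhds {x : X} {U : Set X} (h : U ∈ 𝓝 x) : U ∈ pt x :=
  (Ultrafilter.of_le (𝓝 x ⊓ denseOpen X)) (mem_inf_of_left h)

lemma mem_pt_of_dense (x : X) {D : Set X} (h1 : IsOpen D) (h2 : Dense D) : D ∈ pt x :=
  (Ultrafilter.of_le (𝓝 x ⊓ denseOpen X)) (mem_inf_of_right (mem_denseOpen h1 h2))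

/-- regularization -/
def reg (U : Set X) : Set X := interior (closure U)

lemma reg_isOpen (U : Set X) : IsOpen (reg U) := isOpen_interior

lemma subset_reg {U : Set X} (h : IsOpen U) : U ⊆ reg U :=
  interior_maximal subset_closure h

lemma reg_mono {U V : Set X} (h : U ⊆ V) : reg U ⊆ reg V :=
  interior_mono (closure_mono h)

lemma reg_reg (U : Set X) : reg (reg U) = reg U := by
  apply subset_antisymm
  · apply interior_mono
    exact closure_minimal interior_subset isClosed_closure
  · exact subset_reg (reg_isOpen U)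

/-- the points whose ultrafilter contains `U` -/
def pts (U : Set X) : Set X := {x | U ∈ pt x}

lemma pts_inter (U V : Set X) : pts (U ∩ V) = pts U ∩ pts V := by
  ext x
  simp only [pts, mem_ofPred_eq, mem_inter_iff]
  constructor
  · intro h
    exact ⟨mem_of_superset h inter_subset_left, mem_of_superset h inter_subset_right⟩
  · rintro ⟨h1, h2⟩
    exact inter_mem h1 h2

lemma pts_mono {U V : Set X} (h : U ⊆ V) : pts U ⊆ pts V := fun _ hx => mem_of_superset hx h

lemma pts_union (U V : Set X) : pts (U ∪ V) = pts U ∪ pts V := by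
  ext x
  simp only [pts, mem_ofPred_eq, mem_union]
  exact Ultrafilter.union_mem_iff

lemma dense_union_compl {U : Set X} (_h : IsOpen U) : Dense (U ∪ interior Uᶜ) := by
  rw [interior_compl]
  intro x
  by_cases hx : x ∈ closure U
  · exact closure_mono subset_union_left hx
  · exact subset_closure (Or.inr hx)

lemma pts_compl {U : Set X} (h : IsOpen U) : pts (interior Uᶜ) = (pts U)ᶜ := by
  ext x
  simp only [pts, mem_ofPred_eq, mem_compl_iff]
  have h1 : U ∪ interior Uᶜ ∈ pt x :=
    mem_pt_of_dense x (h.union isOpen_interior) (dense_union_compl h)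
  constructor
  · intro h2 h3
    have h4 : interior Uᶜ ∩ U ∈ pt x := inter_mem h2 h3
    have h5 : interior Uᶜ ∩ U = ∅ := by
      ext y
      simp only [mem_inter_iff, mem_empty_iff_false, iff_false, not_and]
      intro hy hy'
      exact interior_subset hy hy'
    rw [h5] at h4
    exact absurd h4 Ultrafilter.empty_notMem
  · intro h2
    rcases Ultrafilter.union_mem_iff.1 h1 with h3 | h3
    · exact absurd h3 h2
    · exact h3

lemma pts_reg {U : Set X} (h : IsOpen U) : pts (reg U) = pts U := by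
  apply subset_antisymm
  · intro x hx
    by_contra hcon
    have h1 : x ∈ pts (interior Uᶜ) := by
      rw [pts_compl h]
      exact hcon
    have h2 : x ∈ pts (reg U ∩ interior Uᶜ) := by
      rw [pts_inter]
      exact ⟨hx, h1⟩
    have h3 : reg U ∩ interior Uᶜ = ∅ := by
      rw [interior_compl]
      ext y
      simp only [mem_inter_iff, mem_compl_iff, mem_empty_iff_false, iff_false, not_and, not_not]
      intro hy
      exact interior_subset hy
    rw [h3] at h2
    exact absurd h2 Ultrafilter.empty_notMem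
  · exact pts_mono (subset_reg h)

lemma pts_empty : pts (∅ : Set X) = ∅ := by
  ext x
  simp only [pts, mem_ofPred_eq, mem_empty_iff_false, iff_false]
  exact Ultrafilter.empty_notMem

lemma pts_univ : pts (univ : Set X) = univ := by
  ext x
  simp only [pts, mem_ofPred_eq, mem_univ, iff_true]
  exact univ_mem

lemma subset_of_pts_subset {U V : Set X} (hU : IsOpen U) (hV : reg V = V)
    (h : pts U ⊆ pts V) : U ⊆ V := by
  have hVo : IsOpen V := by rw [← hV]; exact reg_isOpen V
  have h1 : U ⊆ closure V := by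
    intro x hx
    by_contra hcon
    have hx' : x ∈ interior Vᶜ := by rw [interior_compl]; exact hcon
    have h2 : x ∈ pts U := mem_pt_of_nhds (hU.mem_nhds hx)
    have h3 : x ∈ pts (interior Vᶜ) := mem_pt_of_nhds (isOpen_interior.mem_nhds hx')
    rw [pts_compl hVo] at h3
    exact h3 (h h2)
  rw [← hV]
  exact interior_maximal h1 hU

end top


/-! ### coordinate subspaces -/

section coord

variable {X : Type}

/-- the vectors of `ℓ²(X)` supported in `A` -/
def coordSub (A : Set X) : Submodule ℂ (lp (fun _ : X => ℂ) 2) where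
  carrier := {f | ∀ x, x ∉ A → f x = 0}
  zero_mem' := fun _ _ => rfl
  add_mem' := by
    intro f g hf hg x hx
    rw [lp.coeFn_add, Pi.add_apply, hf x hx, hg x hx, add_zero]
  smul_mem' := by
    intro c f hf x hx
    rw [lp.coeFn_smul, Pi.smul_apply, hf x hx, smul_zero]

lemma mem_coordSub {A : Set X} {f : lp (fun _ : X => ℂ) 2} :
    f ∈ coordSub A ↔ ∀ x, x ∉ A → f x = 0 := Iff.rfl

lemma coordSub_closed (A : Set X) : IsClosed (coordSub A : Set (lp (fun _ : X => ℂ) 2)) := by
  have h : (coordSub A : Set (lp (fun _ : X => ℂ) 2)) =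
      ⋂ x ∈ Aᶜ, {f : lp (fun _ : X => ℂ) 2 | f x = 0} := by
    ext f
    simp [mem_coordSub]
  rw [h]
  refine isClosed_biInter fun x _ => ?_
  have hc : Continuous (fun f : lp (fun _ : X => ℂ) 2 => f x) :=
    (lp.evalCLM ℂ (fun _ : X => ℂ) 2 x).continuous
  exact isClosed_eq hc continuous_const

lemma coordSub_inf (A B : Set X) : coordSub A ⊓ coordSub B = coordSub (A ∩ B) := by
  ext f
  rw [Submodule.mem_inf, mem_coordSub, mem_coordSub, mem_coordSub]
  constructor
  · rintro ⟨h1, h2⟩ x hx
    by_cases hxA : x ∈ A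
    · exact h2 x (fun hxB => hx ⟨hxA, hxB⟩)
    · exact h1 x hxA
  · intro h
    exact ⟨fun x hx => h x (fun h' => hx h'.1), fun x hx => h x (fun h' => hx h'.2)⟩

/-- the projection of a vector to the coordinates in `A` -/
noncomputable def cut (A : Set X) (f : lp (fun _ : X => ℂ) 2) : lp (fun _ : X => ℂ) 2 :=
  ⟨fun x => A.indicator (fun x => f x) x, by
    refine Memℓp.mono (lp.memℓp f).norm (fun x => ?_)
    by_cases hx : x ∈ A
    · rw [indicator_of_mem hx]
    · rw [indicator_of_notMem hx, norm_zero]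
      exact norm_nonneg _⟩

lemma cut_apply (A : Set X) (f : lp (fun _ : X => ℂ) 2) (x : X) :
    cut A f x = A.indicator (fun x => f x) x := rfl

lemma coordSub_join (A B : Set X) : cjoin (coordSub A) (coordSub B) = coordSub (A ∪ B) := by
  have h1 : coordSub A ⊔ coordSub B = coordSub (A ∪ B) := by
    apply le_antisymm
    · apply sup_le
      · intro f hf x hx
        exact hf x (fun h => hx (Or.inl h))
      · intro f hf x hx
        exact hf x (fun h => hx (Or.inr h))
    · intro f hf
      have e : f = cut A f + cut Aᶜ f := by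
        apply lp.ext
        funext x
        rw [lp.coeFn_add, Pi.add_apply, cut_apply, cut_apply]
        by_cases hx : x ∈ A
        · simp [hx]
        · simp [hx]
      rw [e]
      refine Submodule.add_mem_sup ?_ ?_
      · intro x hx
        rw [cut_apply, indicator_of_notMem hx]
      · intro x hx
        rw [cut_apply]
        by_cases hxA : x ∈ A
        · simp [hxA]
        · rw [indicator_of_mem hxA]
          apply hf
          rintro (h | h)
          · exact hxA h
          · exact hx h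
  unfold cjoin
  rw [h1]
  exact (coordSub_closed _).submodule_topologicalClosure_eq

lemma coordSub_mono {A B : Set X} (h : A ⊆ B) : coordSub A ≤ coordSub B :=
  fun _ hf x hx => hf x (fun h' => hx (h h'))

lemma coordSub_le_iff {A B : Set X} : coordSub A ≤ coordSub B ↔ A ⊆ B := by
  classical
  refine ⟨fun h x hx => ?_, coordSub_mono⟩
  by_contra hxB
  have h1 : (lp.single 2 x (1 : ℂ) : lp (fun _ : X => ℂ) 2) ∈ coordSub A := by
    intro y hy
    have hne : y ≠ x := fun h => hy (h ▸ hx)
    exact lp.single_apply_ne (E := fun _ : X => ℂ) 2 x (1 : ℂ) hne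
  have h2 := h h1 x hxB
  rw [lp.single_apply_self] at h2
  exact one_ne_zero h2

lemma coordSub_empty : coordSub (∅ : Set X) = ⊥ := by
  rw [eq_bot_iff]
  intro f hf
  rw [Submodule.mem_bot]
  apply lp.ext
  funext x
  exact hf x (by simp)

lemma coordSub_univ : coordSub (univ : Set X) = ⊤ := by
  rw [eq_top_iff]
  intro f _ x hx
  exact absurd (mem_univ x) hx

lemma coordSub_inj {A B : Set X} (h : coordSub A = coordSub B) : A = B :=
  subset_antisymm (coordSub_le_iff.1 h.le) (coordSub_le_iff.1 h.ge)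

end coord

/-! ### The family -/

section fam

variable (X : Type) [TopologicalSpace X]

/-- the family of coordinate subspaces attached to the regular open sets -/
def fam : Set (Submodule ℂ (lp (fun _ : X => ℂ) 2)) :=
  {M | ∃ U : Set X, reg U = U ∧ M = coordSub (pts U)}

variable {X}

lemma reg_inter_of_reg {U V : Set X} (hU : reg U = U) (hV : reg V = V) :
    reg (U ∩ V) = U ∩ V := by
  apply subset_antisymm
  · apply subset_inter
    · exact (reg_mono inter_subset_left).trans hU.le
    · exact (reg_mono inter_subset_right).trans hV.le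
  · have h1 : IsOpen U := by rw [← hU]; exact reg_isOpen U
    have h2 : IsOpen V := by rw [← hV]; exact reg_isOpen V
    exact subset_reg (h1.inter h2)

lemma reg_compl {U : Set X} (hU : IsOpen U) : reg (interior Uᶜ) = interior Uᶜ := by
  apply subset_antisymm
  · unfold reg
    apply interior_mono
    exact closure_minimal interior_subset hU.isClosed_compl
  · exact subset_reg isOpen_interior

lemma isOpen_of_reg {U : Set X} (h : reg U = U) : IsOpen U := by rw [← h]; exact reg_isOpen U

lemma reg_empty : reg (∅ : Set X) = ∅ := by simp [reg]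

lemma reg_univ : reg (univ : Set X) = univ := by simp [reg]

lemma mem_fam {U : Set X} (h : reg U = U) : coordSub (pts U) ∈ fam X := ⟨U, h, rfl⟩

lemma coordSub_pts_le {U V : Set X} (hU : reg U = U) (hV : reg V = V) :
    coordSub (pts U) ≤ coordSub (pts V) ↔ U ⊆ V := by
  rw [coordSub_le_iff]
  exact ⟨subset_of_pts_subset (isOpen_of_reg hU) hV, pts_mono⟩

lemma fam_isBooleanAlg : IsBooleanAlg (fam X) where
  isClosed := by
    rintro _ ⟨U, _, rfl⟩
    exact coordSub_closed _
  bot_mem := ⟨∅, reg_empty, by rw [pts_empty, coordSub_empty]⟩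
  top_mem := ⟨univ, reg_univ, by rw [pts_univ, coordSub_univ]⟩
  inf_mem := by
    rintro _ ⟨U, hU, rfl⟩ _ ⟨V, hV, rfl⟩
    exact ⟨U ∩ V, reg_inter_of_reg hU hV, by rw [coordSub_inf, pts_inter]⟩
  join_mem := by
    rintro _ ⟨U, hU, rfl⟩ _ ⟨V, hV, rfl⟩
    refine ⟨reg (U ∪ V), reg_reg _, ?_⟩
    rw [coordSub_join, pts_reg ((isOpen_of_reg hU).union (isOpen_of_reg hV)), pts_union]
  distrib := by
    rintro _ ⟨U, hU, rfl⟩ _ ⟨V, hV, rfl⟩ _ ⟨W, hW, rfl⟩
    rw [coordSub_join, coordSub_inf, coordSub_inf, coordSub_inf, coordSub_join,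
      inter_union_distrib_left]
  compl := by
    rintro _ ⟨U, hU, rfl⟩
    refine ⟨_, mem_fam (reg_compl (isOpen_of_reg hU)), ?_, ?_⟩
    · rw [coordSub_inf, pts_compl (isOpen_of_reg hU), inter_compl_self, coordSub_empty]
    · rw [coordSub_join, pts_compl (isOpen_of_reg hU), union_compl_self, coordSub_univ]

lemma fam_complete : IsCompleteFam (fam X) := by
  intro F hF
  set W : Set X := ⋃₀ {U : Set X | reg U = U ∧ coordSub (pts U) ∈ F} with hW
  have hWo : IsOpen W := isOpen_sUnion (fun U hU => isOpen_of_reg hU.1)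
  refine ⟨coordSub (pts (reg W)), mem_fam (reg_reg W), ?_, ?_⟩
  · intro M hM
    obtain ⟨U, hU, rfl⟩ := hF hM
    rw [coordSub_pts_le hU (reg_reg W)]
    exact (subset_sUnion_of_mem ⟨hU, hM⟩ : U ⊆ W).trans (subset_reg hWo)
  · rintro _ ⟨V, hV, rfl⟩ h
    rw [coordSub_pts_le (reg_reg W) hV, ← hV]
    apply reg_mono
    apply sUnion_subset
    rintro U ⟨hU, hUF⟩
    exact (coordSub_pts_le hU hV).1 (h _ hUF)

end fam

/-! ### General facts on reflexive families -/

section refl

universe u

variable {K : Type u} [NormedAddCommGroup K] [InnerProductSpace ℂ K]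

lemma reflexive_closure_mem {E : Set (Submodule ℂ K)} (hE : IsReflexiveFam E)
    {ι : Type*} (N : ι → Submodule ℂ K) (hN : ∀ i, N i ∈ E) :
    (⨆ i, N i).topologicalClosure ∈ E := by
  rw [hE]
  refine ⟨Submodule.isClosed_topologicalClosure _, fun T hT x hx => ?_⟩
  have h1 : (⨆ i, N i) ≤ (⨆ i, N i).comap (T : K →ₗ[ℂ] K) := by
    apply iSup_le
    intro i y hy
    have h2 : T y ∈ N i := hT (N i) (hN i) y hy
    exact (le_iSup N i) h2
  have h3 : (⨆ i, N i).topologicalClosure ≤
      ((⨆ i, N i).topologicalClosure).comap (T : K →ₗ[ℂ] K) := by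
    apply Submodule.topologicalClosure_minimal
    · intro y hy
      exact Submodule.le_topologicalClosure _ (h1 hy)
    · exact (Submodule.isClosed_topologicalClosure _).preimage T.continuous
  exact h3 hx

lemma reflexive_iInf_mem {E : Set (Submodule ℂ K)} (hE : IsReflexiveFam E)
    {ι : Type*} (N : ι → Submodule ℂ K) (hN : ∀ i, N i ∈ E) : (⨅ i, N i) ∈ E := by
  rw [hE]
  constructor
  · have h : ((⨅ i, N i : Submodule ℂ K) : Set K) = ⋂ i, (N i : Set K) := by
      ext x
      simp
    rw [h]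
    refine isClosed_iInter fun i => ?_
    have := hN i
    rw [hE] at this
    exact this.1
  · intro T hT x hx
    rw [Submodule.mem_iInf] at hx ⊢
    intro i
    exact hT (N i) (hN i) x (hx i)

end refl


/-! ### The approximation argument -/

section approx

universe u

variable {K : Type u} [NormedAddCommGroup K] [InnerProductSpace ℂ K] [CompleteSpace K]

lemma approx_lemma (E : Set (Submodule ℂ K)) (hcl : ∀ M ∈ E, IsClosed (M : Set K))
    (htop : (⊤ : Submodule ℂ K) ∈ E) (hinf : ∀ M ∈ E, ∀ N ∈ E, M ⊓ N ∈ E)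
    (N : ℕ → ℕ → Submodule ℂ K) (hN : ∀ n k, N n k ∈ E)
    (hyp : ∀ L ∈ E, ∀ n, ∀ x ∈ L, ∀ δ : ℝ, 0 < δ → ∃ k, ∃ y ∈ L ⊓ N n k, ‖y - x‖ < δ)
    (x : K) {ε : ℝ} (hε : 0 < ε) :
    ∃ g : ℕ → ℕ, ∃ y : K, (∀ n, y ∈ N n (g n)) ∧ ‖y - x‖ ≤ ε := by
  let State := {p : Submodule ℂ K × K // p.1 ∈ E ∧ p.2 ∈ p.1}
  have step : ∀ (s : State) (n : ℕ), ∃ (k : ℕ) (s' : State),
      s'.1.1 = s.1.1 ⊓ N n k ∧ ‖s'.1.2 - s.1.2‖ < ε / 2 / 2 ^ n := by
    intro s n
    obtain ⟨k, y, hy, hyx⟩ := hyp s.1.1 s.2.1 n s.1.2 s.2.2 (ε / 2 / 2 ^ n) (by positivity)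
    exact ⟨k, ⟨(s.1.1 ⊓ N n k, y), hinf _ s.2.1 _ (hN n k), hy⟩, rfl, hyx⟩
  choose kf sf hs1 hs2 using step
  let s0 : State := ⟨(⊤, x), htop, Submodule.mem_top⟩
  let seq : ℕ → State := fun n => Nat.rec s0 (fun n s => sf s n) n
  have hseq : ∀ n, seq (n + 1) = sf (seq n) n := fun n => rfl
  let g : ℕ → ℕ := fun n => kf (seq n) n
  have hL : ∀ n, (seq (n + 1)).1.1 = (seq n).1.1 ⊓ N n (g n) := fun n => by
    rw [hseq]
    exact hs1 (seq n) n
  have hLmono : ∀ n m, n ≤ m → (seq m).1.1 ≤ (seq n).1.1 := by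
    intro n m hnm
    induction m, hnm using Nat.le_induction with
    | base => exact le_rfl
    | succ m _ ih =>
      rw [hL]
      exact inf_le_left.trans ih
  have hdist : ∀ n, dist ((seq n).1.2) ((seq (n + 1)).1.2) ≤ ε / 2 / 2 ^ n := by
    intro n
    rw [dist_comm, dist_eq_norm, hseq]
    exact (hs2 (seq n) n).le
  have hcau : CauchySeq (fun n => (seq n).1.2) := cauchySeq_of_le_geometric_two hdist
  obtain ⟨y, hy⟩ := cauchySeq_tendsto_of_complete hcau
  refine ⟨g, y, fun n => ?_, ?_⟩
  · refine (hcl _ (hN n (g n))).mem_of_tendsto hy ?_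
    filter_upwards [eventually_ge_atTop (n + 1)] with m hm
    have h1 : (seq m).1.2 ∈ (seq m).1.1 := (seq m).2.2
    have h2 := hLmono (n + 1) m hm h1
    rw [hL] at h2
    exact h2.2
  · have h1 := dist_le_of_le_geometric_two_of_tendsto₀ hdist hy
    rw [dist_comm, dist_eq_norm] at h1
    exact h1

end approx

/-! ### The main argument -/

section main

universe u

variable {K : Type u} [NormedAddCommGroup K] [InnerProductSpace ℂ K] [CompleteSpace K]

lemma enum_rat : ∃ q : ℕ → ℚ, Function.Surjective q := exists_surjective_nat ℚ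

/-- the open set of points at distance more than `1/(k+1)` from `q` -/
def far (q : ℚ) (k : ℕ) : Set ℚ := {x | 1 / ((k : ℝ) + 1) < dist x q}

lemma far_isOpen (q : ℚ) (k : ℕ) : IsOpen (far q k) :=
  isOpen_lt continuous_const (continuous_id.dist continuous_const)

lemma notMem_reg_far (q : ℚ) (k : ℕ) : q ∉ reg (far q k) := by
  intro h
  have h1 : q ∈ closure (far q k) := interior_subset h
  have h2 : closure (far q k) ⊆ {x | 1 / ((k : ℝ) + 1) ≤ dist x q} := by
    apply closure_minimal
    · intro x hx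
      have hx' : 1 / ((k : ℝ) + 1) < dist x q := hx
      exact hx'.le
    · exact isClosed_le continuous_const (continuous_id.dist continuous_const)
  have h3 := h2 h1
  have h4 : 1 / ((k : ℝ) + 1) ≤ dist q q := h3
  rw [dist_self] at h4
  have h5 : 0 < 1 / ((k : ℝ) + 1) := by positivity
  linarith

lemma far_mono (q : ℚ) {k l : ℕ} (h : k ≤ l) : far q k ⊆ far q l := by
  intro x hx
  have hx' : 1 / ((k : ℝ) + 1) < dist x q := hx
  show 1 / ((l : ℝ) + 1) < dist x q
  refine lt_of_le_of_lt ?_ hx'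
  have : (k : ℝ) ≤ l := by exact_mod_cast h
  gcongr

lemma exists_mem_far {q x : ℚ} (h : x ≠ q) : ∃ k, x ∈ far q k :=
  exists_nat_one_div_lt (dist_pos.2 h)

theorem not_latticeIso (E' : Set (Submodule ℂ K)) (hB : IsBooleanAlg E')
    (hR : IsReflexiveFam E') : ¬ LatticeIso (fam ℚ) E' := by
  rintro ⟨φ, hφ, hφ2⟩
  obtain ⟨q, hq⟩ := enum_rat
  -- order embedding
  have hle : ∀ M ∈ fam ℚ, ∀ N ∈ fam ℚ, (M ≤ N ↔ φ M ≤ φ N) := by
    intro M hM N hN
    rw [← inf_eq_left, ← inf_eq_left, ← (hφ2 M hM N hN).1]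
    constructor
    · intro h
      rw [h]
    · intro h
      exact hφ.injOn (fam_isBooleanAlg.inf_mem M hM N hN) hM h
  have hmem : ∀ M ∈ fam ℚ, φ M ∈ E' := fun M hM => hφ.mapsTo hM
  have hbot : φ ⊥ = ⊥ := by
    obtain ⟨M, hM, hM2⟩ := hφ.surjOn hB.bot_mem
    have h1 := (hφ2 ⊥ fam_isBooleanAlg.bot_mem M hM).1
    rw [bot_inf_eq, hM2, inf_bot_eq] at h1
    exact h1
  have hntop : ∃ x : K, x ≠ 0 := by
    by_contra hcon
    have h0 : ∀ x : K, x = 0 := fun x => by
      by_contra hx
      exact hcon ⟨x, hx⟩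
    have h1 : φ (⊤ : Submodule ℂ (lp (fun _ : ℚ => ℂ) 2)) = φ ⊥ := by
      rw [hbot, eq_bot_iff]
      intro x _
      rw [Submodule.mem_bot]
      exact h0 x
    have h2 := hφ.injOn fam_isBooleanAlg.top_mem fam_isBooleanAlg.bot_mem h1
    rw [← coordSub_univ, ← coordSub_empty] at h2
    exact (empty_ne_univ (coordSub_inj h2).symm)
  -- the double sequence
  let b : ℕ → ℕ → Submodule ℂ (lp (fun _ : ℚ => ℂ) 2) := fun n k =>
    coordSub (pts (reg (far (q n) k)))
  have hb : ∀ n k, b n k ∈ fam ℚ := fun n k => mem_fam (reg_reg _)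
  let N : ℕ → ℕ → Submodule ℂ K := fun n k => φ (b n k)
  have hN : ∀ n k, N n k ∈ E' := fun n k => hmem _ (hb n k)
  have hNmono : ∀ n k l, k ≤ l → N n k ≤ N n l := by
    intro n k l hkl
    refine (hle _ (hb n k) _ (hb n l)).1 ?_
    rw [coordSub_pts_le (reg_reg _) (reg_reg _)]
    exact reg_mono (far_mono _ hkl)
  have hyp : ∀ L ∈ E', ∀ n, ∀ x ∈ L, ∀ δ : ℝ, 0 < δ → ∃ k, ∃ y ∈ L ⊓ N n k, ‖y - x‖ < δ := by
    intro L hL n x hx δ hδ
    -- the closed span of the `L ⊓ N n k`
    set J : Submodule ℂ K := (⨆ k, L ⊓ N n k).topologicalClosure with hJdef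
    have hJ : J ∈ E' :=
      reflexive_closure_mem hR (fun k => L ⊓ N n k) (fun k => hB.inf_mem L hL _ (hN n k))
    have hLJ : L ≤ J := by
      obtain ⟨_, ⟨U, hU, rfl⟩, hLU⟩ := hφ.surjOn hL
      obtain ⟨_, ⟨V, hV, rfl⟩, hJV⟩ := hφ.surjOn hJ
      rw [← hLU, ← hJV]
      refine (hle _ (mem_fam hU) _ (mem_fam hV)).1 ?_
      rw [coordSub_pts_le hU hV]
      have h1 : ∀ k, U ∩ reg (far (q n) k) ⊆ V := by
        intro k
        have h2 : L ⊓ N n k ≤ J :=
          (le_iSup (fun k => L ⊓ N n k) k).trans (Submodule.le_topologicalClosure _)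
        rw [← hLU, ← hJV, ← (hφ2 _ (mem_fam hU) _ (hb n k)).1] at h2
        have h3 := (hle _ (fam_isBooleanAlg.inf_mem _ (mem_fam hU) _ (hb n k)) _
          (mem_fam hV)).2 h2
        rw [coordSub_inf, ← pts_inter,
          coordSub_pts_le (reg_inter_of_reg hU (reg_reg _)) hV] at h3
        exact h3
      have h2 : U ∩ {q n}ᶜ ⊆ V := by
        rintro y ⟨hyU, hyq⟩
        obtain ⟨k, hk⟩ := exists_mem_far (q := q n) (x := y) hyq
        exact h1 k ⟨hyU, subset_reg (far_isOpen _ _) hk⟩
      have hUo := isOpen_of_reg hU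
      have h3 : U ⊆ closure (U ∩ {q n}ᶜ) :=
        (dense_compl_singleton (q n)).open_subset_closure_inter hUo
      rw [← hV]
      exact interior_maximal (h3.trans (closure_mono h2)) hUo
    have hxJ : x ∈ closure ((⨆ k, L ⊓ N n k : Submodule ℂ K) : Set K) := by
      have := hLJ hx
      rw [hJdef, ← SetLike.mem_coe, Submodule.topologicalClosure_coe] at this
      exact this
    obtain ⟨y, hy, hxy⟩ := Metric.mem_closure_iff.1 hxJ δ hδ
    have hdir : Directed (· ≤ ·) (fun k => L ⊓ N n k) := by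
      apply Monotone.directed_le
      intro k l hkl
      exact inf_le_inf_left L (hNmono n k l hkl)
    rw [SetLike.mem_coe, Submodule.mem_iSup_of_directed _ hdir] at hy
    obtain ⟨k, hk⟩ := hy
    refine ⟨k, y, hk, ?_⟩
    rw [← dist_eq_norm, dist_comm]
    exact hxy
  obtain ⟨x, hx⟩ := hntop
  have hxn : 0 < ‖x‖ := norm_pos_iff.2 hx
  obtain ⟨g, y, hy, hyx⟩ := approx_lemma E' hB.isClosed hB.top_mem hB.inf_mem N hN hyp x
    (half_pos hxn)
  have hy0 : y ≠ 0 := by
    rintro rfl
    rw [zero_sub, norm_neg] at hyx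
    linarith
  have hI : (⨅ n, N n (g n)) ∈ E' := reflexive_iInf_mem hR _ (fun n => hN n (g n))
  obtain ⟨_, ⟨W, hW, rfl⟩, hIW⟩ := hφ.surjOn hI
  have hWsub : ∀ n, W ⊆ reg (far (q n) (g n)) := by
    intro n
    have h1 : (⨅ n, N n (g n)) ≤ N n (g n) := iInf_le _ n
    rw [← hIW] at h1
    have h2 := (hle _ (mem_fam hW) _ (hb n (g n))).2 h1
    rwa [coordSub_pts_le hW (reg_reg _)] at h2
  have hW0 : W = ∅ := by
    rw [eq_empty_iff_forall_notMem]
    intro w hw
    obtain ⟨n, rfl⟩ := hq w
    exact notMem_reg_far _ _ (hWsub n hw)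
  rw [hW0, pts_empty, coordSub_empty, hbot] at hIW
  have h1 : y ∈ (⨅ n, N n (g n)) := by
    rw [Submodule.mem_iInf]
    exact hy
  rw [← hIW, Submodule.mem_bot] at h1
  exact hy0 h1

end main


/-- **Negative answer to Q1.** There is a complete Boolean algebra `E` of subspaces of the Hilbert
space `ℓ²(ℚ)` that is not lattice isomorphic to any reflexive Boolean algebra `E'` of subspaces of
any complex Hilbert space `K`. -/
theorem result.{u} :
    ∃ E : Set (Submodule ℂ (lp (fun _ : ℚ => ℂ) 2)),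
      IsBooleanAlg E ∧ IsCompleteFam E ∧
      ∀ (K : Type u) [NormedAddCommGroup K] [InnerProductSpace ℂ K] [CompleteSpace K]
        (E' : Set (Submodule ℂ K)),
        IsBooleanAlg E' → IsReflexiveFam E' → ¬ LatticeIso E E' :=
  ⟨fam ℚ, fam_isBooleanAlg, fam_complete, fun _ _ _ _ E' hB hR => not_latticeIso E' hB hR⟩

end Pool.Agent.Results.MP_44afb3_an.NotIsoReflexive
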