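import Pool.Agent.Lib.MP_44afb3_an.Basic

/-!
# Closure under spans and closure under intersections agree for Boolean algebras of subspaces
-/

set_option autoImplicit false

namespace Pool.Agent.Results.MP_44afb3_an.SpansIffIntersections

open Pool.Agent.Lib.MP_44afb3_an

/-- A Boolean algebra of subspaces of a complex Hilbert space is closed under closed linear spans of
arbitrary subfamilies if and only if it is closed under intersections of arbitrary subfamilies. -/
theorem result {H : Type*} [NormedAddCommGroup H] [InnerProductSpace ℂ H] [CompleteSpace H]
    (E : Set (Submodule ℂ H)) (hE : IsBooleanAlg E) : SpanClosed E ↔ InterClosed E :=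
  spanClosed_iff_interClosed hE

end Pool.Agent.Results.MP_44afb3_an.SpansIffIntersections
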